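import Pool.Agent.H43.IsDyn

set_option autoImplicit false

namespace Pool.Agent.Results.MP_4cb49c_pr.RandomStart

open Pool.Agent.H43.Is

/-- In dimension two, at every inverse temperature `β > 6` (which is above the critical one),
mixing from i.i.d. uniform spins needs at least `L³/48 = n^{3/2}/48` steps. -/
theorem result (β : ℝ) (hβ : 6 < β) : betaC < β ∧
    ∃ L₀ : ℕ, ∀ L ≥ L₀, ∀ t : ℕ, tvUnif β L t ≤ 1 / 4 → (L : ℝ) ^ 3 / 48 ≤ t := by
  refine ⟨lt_of_le_of_lt (csInf_le ⟨0, fun _ h => h.1⟩ ⟨by norm_num, 7 / 8, by norm_num,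
    fun m => peierls le_rfl _⟩) hβ, slow hβ.le⟩

end Pool.Agent.Results.MP_4cb49c_pr.RandomStart
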